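import Pool.Agent.PWZ.NilFinal

set_option autoImplicit false

/-!
# Two functions, linear sequences: commuting maps and a part of the nilpotent case

Almost everywhere convergence of `(2N+1)⁻¹ ∑_{|n| ≤ N} f(T^n x) g(S^n x)` for arbitrary commuting
invertible measure preserving maps `T`, `S`, and more generally for two functions along linear
sequences in a nilpotent group, if the functions lie in the closed span of the functions on which
the commutator subgroup acts by an invariant character.

The proof is in `Pool/Agent/PWZ`.

* Finite theorem (`FT`, `Core`, `Ent`, `Names`, `Info`, `Gap`, `Hell`, `Breg`, `DriftC`, `Step`):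
  for two arbitrary bounded functions `F (b, c)`, `G (a, c)` on a finite abelian group the averages
  of `F (b, ·) G (a, ·)` over windows around noisy observations of `a + b` have, in the mean over
  `a`, `b` and the noise, a bounded number of jumps, uniformly in the group and in the number of
  scales.  The functions are described by greedy names of bounded information; the drift caused by
  the information is estimated by relative entropy.
* Transference (`End*`), to measure preserving maps.
* `NilSplit`, `NilPhase`: along the points `T^a S^b x` the product is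
  `θ(a,b) F(b,a+b+n) G(a,a+b+n)` also in the nilpotent case, because the finite theorem allows
  arbitrary functions and the phases which come from the commutators split.

Paper proof of the finite theorem: note 3219 of the team.
-/

open MeasureTheory
open scoped ENNReal

namespace Pool.Agent.Results.MP_4d8f14_an.TwoMaps

/-- `h` is bounded and the commutator subgroup of `G` acts on `h` by a unimodular function `χ`
which is invariant under conjugation by `G`. -/
def EigFun {X : Type} [MeasurableSpace X] (μ : Measure X) (G : Subgroup (Equiv.Perm X))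
    (h : X → ℂ) : Prop :=
  MemLp h ∞ μ ∧ ∃ χ : G → ℂ, (∀ ν ∈ commutator G, ‖χ ν‖ = 1) ∧
    (∀ γ : G, ∀ ν ∈ commutator G, χ (γ * ν * γ⁻¹) = χ ν) ∧
    ∀ ν ∈ commutator G, ∀ᵐ x ∂μ, h ((ν : Equiv.Perm X) x) = χ ν * h x

/-- `f` lies in the closure in `L²` of the finite sums of functions `h` with `EigFun μ G h`. -/
def InE {X : Type} [MeasurableSpace X] (μ : Measure X) (G : Subgroup (Equiv.Perm X))
    (f : X → ℂ) : Prop :=
  ∀ ε : ℝ, 0 < ε → ∃ (k : ℕ) (h : Fin k → X → ℂ), (∀ i, EigFun μ G (h i)) ∧
    eLpNorm (fun x => f x - ∑ i, h i x) 2 μ ≤ ENNReal.ofReal ε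

theorem result :
    ∀ (X : Type) [MeasurableSpace X] (μ : Measure X) [IsProbabilityMeasure μ]
      (d : ℕ) (T : Fin d → Equiv.Perm X),
      (∀ i, Measurable ⇑(T i).symm) →
      (∀ i, MeasurePreserving (⇑(T i)) μ μ) →
      Group.IsNilpotent (Subgroup.closure (Set.range T)) →
      ∀ (P : Fin d → Fin 2 → Polynomial ℤ), (∀ i j, (P i j).eval 0 = 0) →
      (∀ i j, (P i j).natDegree ≤ 1) →
      ∀ (f : Fin 2 → X → ℂ), (∀ j, MemLp (f j) ∞ μ) →
      ((∀ i i', Commute (T i) (T i')) ∨
        ∃ j : Fin 2, InE μ (Subgroup.closure (Set.range T)) (f j) ∧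
          ∀ i, i ≠ j → InE μ (Subgroup.closure (Set.range T)) (f i) ∨
            ∃ V : Equiv.Perm X, ∀ n : ℤ,
              (List.ofFn fun l : Fin d => T l ^ (P l i).eval n).prod = V ^ n) →
      ∀ᵐ x ∂μ, ∃ L : ℂ, Filter.Tendsto
        (fun N : ℕ => ((2 * N + 1 : ℕ) : ℂ)⁻¹ *
          ∑ n ∈ Finset.Icc (-(N : ℤ)) (N : ℤ),
            ∏ j : Fin 2, f j ((List.ofFn fun i : Fin d => T i ^ (P i j).eval n).prod x))
        Filter.atTop (nhds L) := by
  intro X _ μ _ d T hs hT hnil P hP0 hP1 f hf hE
  rcases hE with hc | ⟨j, hj, hi⟩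
  · exact Pool.PWZ.nil_final X μ d T hs hT hnil P hP0 hP1 f hf 0
      (Pool.PWZ.InE_of_commute T hc (f 0) (hf 0))
      fun i _ => Or.inl (Pool.PWZ.InE_of_commute T hc (f i) (hf i))
  · exact Pool.PWZ.nil_final X μ d T hs hT hnil P hP0 hP1 f hf j hj hi

end Pool.Agent.Results.MP_4d8f14_an.TwoMaps
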